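import Pool.Agent.Y811.PC.Stm6

set_option autoImplicit false

/-! # Lower bound for the complement of the Multibrot set (helper500, job PA-LOW) -/

namespace Pool.Agent.Y500.PC

open Complex Metric Set Filter Topology MeasureTheory Pool.Agent.H712R2 Pool.Agent.H713R2 N62a1eb23
open Pool.Agent.Y811.PC

/-- A compact annulus is mapped away from the compact set. -/
theorem sep {M : Set ℂ} (hM : IsClosed M) {ψ : ℂ → ℂ} (hψ : IsExteriorMap M ψ) :
    ∃ r₀ : ℝ, 0 < r₀ ∧ ∀ z, 2 ≤ ‖z‖ → ‖z‖ ≤ 3 → ∀ c ∈ M, r₀ ≤ ‖ψ z - c‖ := by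
  have hc : IsCompact {z : ℂ | 2 ≤ ‖z‖ ∧ ‖z‖ ≤ 3} := by
    refine (isCompact_closedBall (0 : ℂ) 3).of_isClosed_subset ?_ ?_
    · exact (isClosed_le continuous_const continuous_norm).inter
        (isClosed_le continuous_norm continuous_const)
    · intro z hz
      rw [mem_closedBall_zero_iff]
      exact hz.2
  have hi : IsCompact (ψ '' {z : ℂ | 2 ≤ ‖z‖ ∧ ‖z‖ ≤ 3}) := by
    refine hc.image_of_continuousOn (hψ.diff.continuousOn.mono ?_)
    intro z hz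
    have h2 : 2 ≤ ‖z‖ := hz.1
    show 1 < ‖z‖
    linarith
  have hs : ψ '' {z : ℂ | 2 ≤ ‖z‖ ∧ ‖z‖ ≤ 3} ⊆ Mᶜ := by
    rw [← hψ.image]
    apply image_mono
    intro z hz
    have h2 : 2 ≤ ‖z‖ := hz.1
    show 1 < ‖z‖
    linarith
  obtain ⟨δ, hδ, hsub⟩ := hi.exists_thickening_subset_open hM.isOpen_compl hs
  refine ⟨δ, hδ, fun z h2 h3 c hc => ?_⟩
  by_contra hlt
  push Not at hlt
  have h4 : c ∈ thickening δ (ψ '' {z : ℂ | 2 ≤ ‖z‖ ∧ ‖z‖ ≤ 3}) := by
    rw [mem_thickening_iff]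
    refine ⟨ψ z, ⟨z, ⟨h2, h3⟩, rfl⟩, ?_⟩
    rw [dist_comm, dist_eq_norm]
    exact hlt
  exact hsub h4 hc

theorem t_LOW (h : S_KOE) : S_LOW := by
  intro d hd ψ hψ
  obtain ⟨Cg, hCg, hK⟩ := h
  obtain ⟨r₀, hr₀, hsep⟩ := sep (isCompact_multibrot hd).isClosed hψ
  have him : ∀ z : ℂ, 1 < ‖z‖ → ψ z ∉ multibrotSet d := fun z hz => by
    have h1 : ψ z ∈ ψ '' {z | 1 < ‖z‖} := ⟨z, hz, rfl⟩
    rw [hψ.image] at h1
    exact h1
  obtain ⟨k, hk⟩ : ∃ k : ℝ, k = min (1 / (196608 * Cg ^ 2)) (1 / (768 * Cg)) := ⟨_, rfl⟩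
  have hk0 : 0 < k := by rw [hk]; exact lt_min (by positivity) (by positivity)
  have hk1 : k ≤ 1 / (196608 * Cg ^ 2) := by rw [hk]; exact min_le_left _ _
  have hk2 : k ≤ 1 / (768 * Cg) := by rw [hk]; exact min_le_right _ _
  refine ⟨k, r₀, hk0, hr₀, ?_⟩
  intro c₀ hc₀ r hr hrr w hw1 hw2 hwc
  -- the points
  obtain ⟨ρ0, hρ0⟩ : ∃ ρ0 : ℝ, ρ0 = ‖w‖ - 1 := ⟨_, rfl⟩
  have hρp : 0 < ρ0 := by rw [hρ0]; linarith
  have hρ1 : ρ0 ≤ 1 := by rw [hρ0]; linarith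
  rw [← hρ0]
  obtain ⟨L, hL⟩ : ∃ L : ℝ, L = 1 + Real.log (1 / ρ0) := ⟨_, rfl⟩
  rw [← hL]
  have hlog0 : 0 ≤ Real.log (1 / ρ0) := Real.log_nonneg (by rw [le_div_iff₀ hρp]; linarith)
  have hL1 : 1 ≤ L := by rw [hL]; linarith
  have hL0 : 0 < L := by linarith
  obtain ⟨ρ, hρ⟩ : ∃ ρ : ℕ → ℝ, ρ = fun j => (3 / 2 : ℝ) ^ j * ρ0 := ⟨_, rfl⟩
  have hρpos : ∀ j, 0 < ρ j := fun j => by rw [hρ]; positivity
  have hρs : ∀ j, ρ (j + 1) = 3 / 2 * ρ j := fun j => by rw [hρ]; simp only; ring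
  have hρz : ρ 0 = ρ0 := by rw [hρ]; simp
  have hρmono : ∀ i j, i < j → ρ i ≤ 2 / 3 * ρ j := by
    intro i j hij
    have h1 : ∀ m, ρ i ≤ 2 / 3 * ρ (i + 1 + m) := by
      intro m
      induction m with
      | zero =>
        rw [add_zero, hρs]
        linarith
      | succ m ih =>
        rw [show i + 1 + (m + 1) = i + 1 + m + 1 by ring, hρs]
        linarith [hρpos (i + 1 + m)]
    obtain ⟨m, rfl⟩ : ∃ m, j = i + 1 + m := ⟨j - (i + 1), by omega⟩
    exact h1 m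
  obtain ⟨ζ, hζ⟩ : ∃ ζ : ℂ, ζ = w / ‖w‖ := ⟨_, rfl⟩
  have hw0 : (‖w‖ : ℂ) ≠ 0 := by
    norm_cast
    linarith
  have hζ1 : ‖ζ‖ = 1 := by
    rw [hζ, norm_div, Complex.norm_real, norm_norm, div_self]
    linarith
  obtain ⟨W, hW⟩ : ∃ W : ℕ → ℂ, W = fun j => ((1 + ρ j : ℝ) : ℂ) * ζ := ⟨_, rfl⟩
  have hW0 : W 0 = w := by
    rw [hW]
    simp only
    rw [hρz, hρ0, hζ]
    have e1 : (1 + (‖w‖ - 1) : ℝ) = ‖w‖ := by ring
    rw [e1]
    field_simp
  have hWn : ∀ j, ‖W j‖ = 1 + ρ j := by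
    intro j
    rw [hW]
    simp only
    rw [norm_mul, hζ1, mul_one, Complex.norm_real, Real.norm_of_nonneg]
    linarith [hρpos j]
  have hWd : ∀ i j, ‖W j - W i‖ = |ρ j - ρ i| := by
    intro i j
    have e1 : W j - W i = ((ρ j - ρ i : ℝ) : ℂ) * ζ := by
      rw [hW]
      simp only
      push_cast
      ring
    rw [e1, norm_mul, hζ1, mul_one, Complex.norm_real, Real.norm_eq_abs]
  have hball : ∀ j, ball (W j) (ρ j) ⊆ {z : ℂ | 1 < ‖z‖} := by
    intro j z hz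
    rw [mem_ball, dist_eq_norm] at hz
    have h1 : ‖W j‖ ≤ ‖z‖ + ‖z - W j‖ := by
      calc ‖W j‖ = ‖z - (z - W j)‖ := by congr 1; ring
        _ ≤ _ := norm_sub_le _ _
    rw [hWn] at h1
    show 1 < ‖z‖
    linarith
  obtain ⟨x, hx⟩ : ∃ x : ℕ → ℝ, x = fun j => ρ j * ‖deriv ψ (W j)‖ := ⟨_, rfl⟩
  have hx0 : ∀ j, 0 ≤ x j := fun j => by
    rw [hx]
    have := (hρpos j).le
    positivity
  -- Koebe
  have hKj := fun j => hK ψ (W j) (ρ j) (hρpos j) (hψ.diff.mono (hball j)) (hψ.inj.mono (hball j))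
  have hKs := fun j => hK ψ (W j) (ρ j / 16) (by linarith [hρpos j])
    (hψ.diff.mono ((ball_subset_ball (by linarith [hρpos j])).trans (hball j)))
    (hψ.inj.mono ((ball_subset_ball (by linarith [hρpos j])).trans (hball j)))
  have hgrow : ∀ j, ‖ψ (W (j + 1)) - ψ (W j)‖ ≤ Cg * x j := by
    intro j
    rw [hx]
    refine (hKj j).2 _ ?_
    rw [hWd, hρs, abs_of_nonneg (by linarith [hρpos j])]
    linarith
  have hquart : ∀ j, x j / 4 ≤ ‖ψ (W j) - c₀‖ := by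
    intro j
    by_contra hlt
    push Not at hlt
    have h1 : c₀ ∈ ball (ψ (W j)) (ρ j * ‖deriv ψ (W j)‖ / 4) := by
      rw [mem_ball, dist_comm, dist_eq_norm]
      rw [hx] at hlt
      exact hlt
    obtain ⟨z, hz, hzc⟩ := (hKj j).1 h1
    exact him z (hball j hz) (by rw [hzc]; exact hc₀)
  -- the exit index
  obtain ⟨J, hJ1, hJ2⟩ : ∃ J : ℕ, 1 ≤ ρ J ∧ ∀ j < J, ρ j < 1 := by
    have hex : ∃ J : ℕ, 1 ≤ ρ J := by
      obtain ⟨m, hm⟩ := pow_unbounded_of_one_lt (1 / ρ0) (show (1 : ℝ) < 3 / 2 by norm_num)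
      refine ⟨m, ?_⟩
      rw [hρ]
      rw [div_lt_iff₀ hρp] at hm
      exact hm.le
    classical
    exact ⟨Nat.find hex, Nat.find_spec hex, fun j hj => not_le.1 (Nat.find_min hex hj)⟩
  have hρJ : ρ J ≤ 3 / 2 := by
    rcases Nat.eq_zero_or_pos J with h1 | h1
    · rw [h1, hρz]
      linarith
    · obtain ⟨i, rfl⟩ : ∃ i, J = i + 1 := ⟨J - 1, by omega⟩
      rw [hρs]
      linarith [hJ2 i (by omega)]
  have hfar : r < ‖ψ (W J) - c₀‖ := by
    refine hrr.trans_le (hsep _ ?_ ?_ c₀ hc₀)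
    · rw [hWn]
      linarith
    · rw [hWn]
      linarith
  obtain ⟨J', hJ'1, hJ'2, hJ'3⟩ : ∃ J' : ℕ, J' ≤ J ∧ r / 2 ≤ ‖ψ (W J') - c₀‖ ∧
      ∀ j < J', ‖ψ (W j) - c₀‖ < r / 2 := by
    have hex : ∃ i : ℕ, r / 2 ≤ ‖ψ (W i) - c₀‖ := ⟨J, by linarith⟩
    classical
    exact ⟨Nat.find hex, Nat.find_min' hex (by linarith), Nat.find_spec hex,
      fun j hj => not_le.1 (Nat.find_min hex hj)⟩
  have hJ'0 : 0 < J' := by
    rcases Nat.eq_zero_or_pos J' with h1 | h1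
    · rw [h1, hW0] at hJ'2
      linarith
    · exact h1
  have hJL : (J' : ℝ) ≤ 3 * L := by
    have h1 : (J' : ℝ) ≤ J := by exact_mod_cast hJ'1
    obtain ⟨i, rfl⟩ : ∃ i, J = i + 1 := ⟨J - 1, by omega⟩
    have h2 := hJ2 i (by omega)
    rw [hρ] at h2
    simp only at h2
    have h3 : (3 / 2 : ℝ) ^ i < 1 / ρ0 := by
      rw [lt_div_iff₀ hρp]
      exact h2
    have h4 := Real.log_lt_log (by positivity) h3
    rw [Real.log_pow] at h4
    have h5 : (1 : ℝ) / 3 ≤ Real.log (3 / 2) := by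
      have := Real.one_sub_inv_le_log_of_pos (show (0 : ℝ) < 3 / 2 by norm_num)
      norm_num at this ⊢
      linarith
    have h6 : (i : ℝ) * (1 / 3) ≤ i * Real.log (3 / 2) := by
      have : (0 : ℝ) ≤ i := Nat.cast_nonneg i
      gcongr
    push_cast at h1
    rw [hL]
    linarith
  -- the sum
  have htel : ∀ m, ‖ψ (W m) - ψ (W 0)‖ ≤ Cg * ∑ j ∈ Finset.range m, x j := by
    intro m
    induction m with
    | zero => simp
    | succ m ih =>
      rw [Finset.sum_range_succ, mul_add]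
      calc ‖ψ (W (m + 1)) - ψ (W 0)‖
          = ‖(ψ (W m) - ψ (W 0)) + (ψ (W (m + 1)) - ψ (W m))‖ := by congr 1; ring
        _ ≤ ‖ψ (W m) - ψ (W 0)‖ + ‖ψ (W (m + 1)) - ψ (W m)‖ := norm_add_le _ _
        _ ≤ _ := add_le_add ih (hgrow m)
  obtain ⟨S, hS⟩ : ∃ S : ℝ, S = ∑ j ∈ Finset.range J', x j := ⟨_, rfl⟩
  have hSr : r / 4 ≤ Cg * S := by
    have h1 := htel J'
    rw [← hS, hW0] at h1
    have h2 : ‖ψ (W J') - c₀‖ ≤ ‖ψ (W J') - ψ w‖ + ‖ψ w - c₀‖ := by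
      calc ‖ψ (W J') - c₀‖ = ‖(ψ (W J') - ψ w) + (ψ w - c₀)‖ := by congr 1; ring
        _ ≤ _ := norm_add_le _ _
    linarith
  have hS4 : r / (4 * Cg) ≤ S := by
    rw [div_le_iff₀ (by positivity)]
    linarith
  have hJ'R : (0 : ℝ) < J' := by exact_mod_cast hJ'0
  -- the discs
  have hdisc : ∀ j < J', ball (ψ (W j)) (x j / 64) ⊆ ball c₀ r \ multibrotSet d := by
    intro j hj z hz
    refine ⟨?_, ?_⟩
    · rw [mem_ball, dist_eq_norm] at hz ⊢
      have h1 := hJ'3 j hj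
      have h2 := hquart j
      have h3 : ‖z - c₀‖ ≤ ‖z - ψ (W j)‖ + ‖ψ (W j) - c₀‖ := by
        calc ‖z - c₀‖ = ‖(z - ψ (W j)) + (ψ (W j) - c₀)‖ := by congr 1; ring
          _ ≤ _ := norm_add_le _ _
      linarith
    · have h1 : ρ j / 16 * ‖deriv ψ (W j)‖ / 4 = x j / 64 := by
        rw [hx]
        ring
      have h2 := (hKs j).1
      rw [h1] at h2
      obtain ⟨y, hy, rfl⟩ := h2 hz
      exact him y (hball j (ball_subset_ball (by linarith [hρpos j]) hy))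
  have hdisj0 : ∀ i j, i < j → Disjoint (ball (ψ (W i)) (x i / 64)) (ball (ψ (W j)) (x j / 64)) := by
    intro i j hij
    rw [Set.disjoint_left]
    intro z hzi hzj
    have h1 : ∀ i, ρ i / 16 * ‖deriv ψ (W i)‖ / 4 = x i / 64 := by
      intro i
      rw [hx]
      ring
    have h2 := (hKs i).1
    have h3 := (hKs j).1
    rw [h1] at h2 h3
    obtain ⟨y, hy, hyz⟩ := h2 hzi
    obtain ⟨y', hy', hyz'⟩ := h3 hzj
    have h4 : y = y' := hψ.inj (hball i (ball_subset_ball (by linarith [hρpos i]) hy))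
      (hball j (ball_subset_ball (by linarith [hρpos j]) hy')) (by rw [hyz, hyz'])
    rw [← h4, mem_ball, dist_eq_norm] at hy'
    rw [mem_ball, dist_eq_norm] at hy
    have h5 : ‖W j - W i‖ ≤ ‖y - W i‖ + ‖y - W j‖ := by
      calc ‖W j - W i‖ = ‖(y - W i) - (y - W j)‖ := by congr 1; ring
        _ ≤ _ := norm_sub_le _ _
    rw [hWd] at h5
    have h6 := hρmono i j hij
    have h7 := le_abs_self (ρ j - ρ i)
    have h8 := hρpos i
    have h9 := hρpos j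
    linarith
  refine ⟨?_, ?_⟩
  · have hpw : Set.PairwiseDisjoint (↑(Finset.range J') : Set ℕ)
        (fun j => ball (ψ (W j)) (x j / 64)) := by
      intro i _ j _ hij
      rcases lt_or_gt_of_ne hij with h1 | h1
      · exact hdisj0 i j h1
      · exact (hdisj0 j i h1).symm
    have hvol : volume (⋃ j ∈ Finset.range J', ball (ψ (W j)) (x j / 64)) =
        ∑ j ∈ Finset.range J', volume (ball (ψ (W j)) (x j / 64)) :=
      measure_biUnion_finset hpw fun j _ => measurableSet_ball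
    have hsub : (⋃ j ∈ Finset.range J', ball (ψ (W j)) (x j / 64)) ⊆ ball c₀ r \ multibrotSet d := by
      refine iUnion₂_subset fun j hj => hdisc j (Finset.mem_range.1 hj)
    refine le_trans ?_ (measure_mono hsub)
    rw [hvol]
    have hv1 : ∀ j ∈ Finset.range J', ENNReal.ofReal ((x j / 64) ^ 2) ≤
        volume (ball (ψ (W j)) (x j / 64)) := by
      intro j _
      have h1 := hx0 j
      rw [Complex.volume_ball, ENNReal.ofReal_pow (by positivity)]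
      refine le_mul_of_one_le_right bot_le ?_
      have h2 : (1 : NNReal) ≤ NNReal.pi := by
        rw [← NNReal.coe_le_coe, NNReal.coe_real_pi, NNReal.coe_one]
        linarith [Real.pi_gt_three]
      exact_mod_cast h2
    refine le_trans ?_ (Finset.sum_le_sum hv1)
    rw [← ENNReal.ofReal_sum_of_nonneg fun j _ => sq_nonneg _]
    apply ENNReal.ofReal_le_ofReal
    have hcs : S ^ 2 ≤ J' * ∑ j ∈ Finset.range J', x j ^ 2 := by
      have := sq_sum_le_card_mul_sum_sq (s := Finset.range J') (f := x)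
      rw [Finset.card_range] at this
      rw [hS]
      exact this
    have e1 : ∑ j ∈ Finset.range J', (x j / 64) ^ 2 =
        (∑ j ∈ Finset.range J', x j ^ 2) / 4096 := by
      rw [Finset.sum_div]
      refine Finset.sum_congr rfl fun j _ => by ring
    rw [e1]
    obtain ⟨Q, hQ⟩ : ∃ Q : ℝ, Q = ∑ j ∈ Finset.range J', x j ^ 2 := ⟨_, rfl⟩
    rw [← hQ] at hcs ⊢
    have hQ0 : 0 ≤ Q := by
      rw [hQ]
      exact Finset.sum_nonneg fun j _ => sq_nonneg _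
    have h1 : (r / (4 * Cg)) ^ 2 ≤ S ^ 2 := by
      apply pow_le_pow_left₀ (by positivity) hS4
    have h2 : (J' : ℝ) * Q ≤ 3 * L * Q := by gcongr
    have h3 : (r / (4 * Cg)) ^ 2 ≤ 3 * L * Q := h1.trans (hcs.trans h2)
    rw [div_le_iff₀ hL0]
    calc k * r ^ 2 ≤ 1 / (196608 * Cg ^ 2) * r ^ 2 := by gcongr
      _ = (r / (4 * Cg)) ^ 2 / 12288 := by
          field_simp
          norm_num
      _ ≤ (3 * L * Q) / 12288 := by gcongr
      _ = Q / 4096 * L := by ring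
  · obtain ⟨j, hj, hxj⟩ : ∃ j ∈ Finset.range J', S / J' ≤ x j := by
      have hne : (Finset.range J').Nonempty := ⟨0, Finset.mem_range.2 hJ'0⟩
      apply Finset.exists_le_of_sum_le hne
      rw [Finset.sum_const, Finset.card_range, nsmul_eq_mul, ← hS]
      rw [mul_div_cancel₀ _ hJ'R.ne']
    refine ⟨ψ (W j), (ball_subset_ball ?_).trans (hdisc j (Finset.mem_range.1 hj))⟩
    have hS0 : 0 ≤ S := le_trans (by positivity) hS4
    have h1 : r / (4 * Cg) / (3 * L) ≤ x j := by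
      calc r / (4 * Cg) / (3 * L) ≤ S / J' := by gcongr
        _ ≤ x j := hxj
    calc k * r / L ≤ 1 / (768 * Cg) * r / L := by gcongr
      _ = r / (4 * Cg) / (3 * L) / 64 := by
          field_simp
          norm_num
      _ ≤ x j / 64 := by gcongr

end Pool.Agent.Y500.PC
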